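import Pool.Agent.U74.LN.Um

/-!
# The Farrell-Jones conjecture for A-theory: graphs of linear groups with balanced or stable edge groups

`C` is a class of groups with the closure properties `ClosedE C`, which contains the metabelian groups and
satisfies `AcylF C` (finitely generated groups with an acylindrical action on a tree with stabilizers in
`C` are in `C`). All this is known for the class of the groups whose wreath products with finite groups
satisfy the A-theoretic Farrell-Jones conjecture with coefficients: the closure properties are due to
Enkelmann, Lück, Pieper, Ullmann and Winges; the solvable groups and the groups `GL_m(F)` (`F` a number field, by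
S-arithmetic groups) to Kasprowski, Ullmann, Wegner and Winges; Knopf proved `AcylF` for K- and
L-theory, and his proof works for A-theory by the criterion of Enkelmann et al. The
class of the groups with the K- and L-theoretic conjecture has the same properties. In A-theory
the Nil-terms of amalgams and HNN extensions do not vanish, even for torsion-free groups and cyclic edge
groups, so the splitting theorem of Waldhausen does not give the following results.

* (1) Let `G` act on a tree, all quotients `N/R` of subgroups of the vertex stabilizers by
  virtually solvable normal subgroups in `C` (`SQ C`, e.g. linear groups), such that two edge stabilizers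
  at a vertex are commensurable or have a finite intersection (bounded if one of the edges is fixed). Let each
  infinite edge stabilizer `E` satisfy one of the following two conditions: it is virtually solvable and
  every finitely generated subgroup of the commensurator of `E` in `G` normalizes a
  subgroup of finite index of `E` (`LNorm`); or all edge stabilizers `G_e` commensurable with `E` are abelian and
  for the ends `v` of `e` the elements of `G_v` which commute with a subgroup of finite index of `G_e` commute with
  `G_e` (`Stb`). Then `G` is in `C`.
* (2) For cyclic edge stabilizers it suffices that each infinite edge stabilizer `E` is balanced in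
  `G` (no power `c ^ p` with `p ≠ 0` of a generator is conjugate to `c ^ q` with `|q| ≠ |p|`), or that all edge
  stabilizers commensurable with `E` are `Stb` (then `E` can be unbalanced).
* (3) Let the vertex stabilizers be groups of matrices over fields `F` with all `GL_m(F)` in `C`
  (everything depends on the vertex), with abelian infinite edge stabilizers which
  consist of matrices `a` that are polynomials in `a ^ k` for all `k ≠ 0` (`StbM`), and isolated as in (1). Then
  `G` is in `C`.
* (4) Unipotent matrices over fields of characteristic zero have the property `StbM`.
* (5) Let the vertex stabilizers be subgroups of `GL_n(ℤ)`, let the infinite edge stabilizers be nilpotent,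
  isolated as in (1), and congruent to `1` modulo a prime `l ≥ 3` (`n` and `l` depend on the vertex). Then
  `G` is in `C`, if the groups `GL_m(ℚ)` are in `C`. The vertex stabilizers themselves can have torsion and need
  not be congruent to `1`.

So every group which acts on a tree with vertex stabilizers in `GL_n(F_v)`, `F_v` number fields, and cyclic edge
stabilizers, such that the edge stabilizers are generated by unipotent matrices or are finite, is in `C`
(cyclic edge stabilizers are isolated). For example HNN extensions of `GL_n(ℤ)` with `t u ^ p t⁻¹ = w ^ q`, for all unipotent `u`, `w` and all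
`p, q ≠ 0`; they contain Baumslag-Solitar groups in general, and they have torsion.

Outline of the proof. By the theorem on cylinders it suffices that the commensurators `K` of the infinite edge
groups are in `C`. For stable edge groups the elements of `K` which commute with a subgroup of finite index
of `E` form a normal subgroup, and the centres `A_v` of its intersections with the stabilizers of the
vertices contain the edge groups; the groups `A_v` generate a normal subgroup of `K` which acts on the tree
with abelian vertex stabilizers, and the quotient acts on a tree with trivial edge stabilizers. For (5) the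
centres are replaced by the upper central series of the root closures of the edge groups.
-/

set_option autoImplicit false

namespace Pool.Agent.Results.MP_2a547c_gt.BalancedOrStableEdges

open Pool.Agent.Y110.FJ (ClosedE)
open Pool.Agent.N509.TX (AcylF)
open Pool.Agent.N431.CE (Es)
open Pool.Agent.U74.LN (VS SQ LNorm Stb Bal StbM StbEdges)
open Subgroup

/-- `G` acts on the tree `T` by automorphisms -/
def TreeAction (G : Type) {V : Type} [Group G] [MulAction G V] (T : SimpleGraph V) : Prop :=
  T.IsTree ∧ ∀ (g : G) (u v : V), T.Adj u v → T.Adj (g • u) (g • v)

/-- two edge stabilizers at a vertex are commensurable or have a finite intersection, which is bounded if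
one of the edges is fixed -/
def Isolated (G : Type) {V : Type} [Group G] [MulAction G V] (T : SimpleGraph V) : Prop :=
  ∀ v a, T.Adj v a → ∃ N : ℕ, ∀ b, T.Adj v b → b ≠ a →
    Subgroup.Commensurable (Es G v a) (Es G v b) ∨
      (Finite ↥(Es G v a ⊓ Es G v b) ∧ Nat.card ↥(Es G v a ⊓ Es G v b) ≤ N)

/-- all edge stabilizers commensurable with the stabilizer of the edge `{v, u}` are stable -/
def AllStb (G : Type) {V : Type} [Group G] [MulAction G V] (T : SimpleGraph V) (v u : V) : Prop :=
  ∀ a b, T.Adj a b → Subgroup.Commensurable (Es G a b) (Es G v u) → Stb G a b

/-- the vertex stabilizers are subgroups of `GL_n(ℤ)`, and the elements of their infinite edge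
stabilizers are congruent to `1` modulo a prime `l ≥ 3` -/
def CongEdges (G : Type) {V : Type} [Group G] [MulAction G V] (T : SimpleGraph V) : Prop :=
  ∀ v : V, ∃ (l n : ℕ) (ρ : MulAction.stabilizer G v →* Matrix.GeneralLinearGroup (Fin n) ℤ),
    l.Prime ∧ 3 ≤ l ∧ Function.Injective ρ ∧ ∀ u, T.Adj v u → Infinite (Es G v u) →
      ∀ x : MulAction.stabilizer G v, (x : G) • u = u →
        Matrix.GeneralLinearGroup.map (Int.castRingHom (ZMod l)) (ρ x) = 1

/-- Let `C` be a class of groups with `ClosedE C` and `AcylF C` which contains the metabelian groups.
Groups `G` which act on trees are in `C` in the following cases. (1) The vertex stabilizers are in `SQ C`,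
the edge stabilizers are isolated, and the infinite edge stabilizers are virtually solvable and locally
normalized by their commensurators, or all edge stabilizers commensurable with them are stable. (2) The vertex
stabilizers are in `SQ C`, the edge stabilizers are cyclic, and the infinite ones are balanced or the
commensurable edge stabilizers are stable. (3) The vertex stabilizers are groups of matrices, the edge
stabilizers are isolated, and the infinite ones are abelian groups of matrices `a` which are polynomials in
`a ^ k` for all `k ≠ 0`; (4) unipotent matrices in characteristic zero have this property. (5) The vertex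
stabilizers are subgroups of `GL_n(ℤ)`, the infinite edge stabilizers are nilpotent, isolated and congruent to
`1` modulo a prime `l ≥ 3`. -/
theorem result (C : ∀ (G : Type) [Group G], Prop) (hC : ClosedE C)
    (hM : ∀ (G : Type) [Group G], derivedSeries G 2 = ⊥ → C G) (hA : AcylF C) :
    (∀ (G V : Type) [Group G] [MulAction G V] (T : SimpleGraph V), TreeAction G T →
      (∀ v : V, SQ C (MulAction.stabilizer G v)) → Isolated G T →
      (∀ v u : V, T.Adj v u → Infinite (Es G v u) →
        (VS (Es G v u) ∧ LNorm (Es G v u)) ∨ AllStb G T v u) → C G) ∧
    (∀ (G V : Type) [Group G] [MulAction G V] (T : SimpleGraph V), TreeAction G T →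
      (∀ v : V, SQ C (MulAction.stabilizer G v)) → (∀ v u : V, T.Adj v u → IsCyclic (Es G v u)) →
      (∀ v u : V, T.Adj v u → Infinite (Es G v u) → Bal (Es G v u) ∨ AllStb G T v u) → C G) ∧
    (∀ (G V : Type) [Group G] [MulAction G V] (T : SimpleGraph V), TreeAction G T →
      StbEdges C G T → Isolated G T → C G) ∧
    (∀ (F : Type) [Field F] [CharZero F] (n : ℕ) (a : Matrix (Fin n) (Fin n) F),
      IsNilpotent (a - 1) → StbM a) ∧
    ((∀ m : ℕ, C (Matrix.GeneralLinearGroup (Fin m) ℚ)) →
      ∀ (G V : Type) [Group G] [MulAction G V] (T : SimpleGraph V), TreeAction G T →
      CongEdges G T → Isolated G T →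
      (∀ v u : V, T.Adj v u → Infinite (Es G v u) → Group.IsNilpotent (Es G v u)) → C G) := by
  refine ⟨fun G V _ _ T hT hV hI hE => ?_, fun G V _ _ T hT hV hN hE => ?_,
    fun G V _ _ T hT h hI => ?_, fun F _ _ n a h => ?_, fun hL G V _ _ T hT h hI hN => ?_⟩
  · refine Pool.Agent.U74.LN.mix_main hC hM hA hT.1 hT.2 hI hV (fun _ _ => ⊥) ?_ fun v u hvu hi => ?_
    · refine ⟨fun v u _ x hx => ?_, fun g v u _ x hx => ?_, fun v u w _ _ _ => rfl⟩
      · rw [Subgroup.mem_bot.1 hx, one_smul]
      · rw [Subgroup.mem_bot.1 hx, mul_one, mul_inv_cancel]
        exact Subgroup.one_mem _
    · rcases hE v u hvu hi with h1 | h1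
      · exact Or.inl h1
      · exact Or.inr (Or.inl h1)
  · exact Pool.Agent.U74.LN.cyc_mix hC hM hA hT.1 hT.2 hV hN hE
  · exact Pool.Agent.U74.LN.stbm_main hC hM hA hT.1 hT.2 hI h
  · exact Pool.Agent.U74.LN.unip_stb a h
  · exact Pool.Agent.U74.LN.int_main hC hM hA hL hT.1 hT.2 hI hN h

end Pool.Agent.Results.MP_2a547c_gt.BalancedOrStableEdges
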