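import Pool.Agent.U722.OG.Fld

/-!
# Orthogonal groups of Witt index one over rings with a degree function

`C` is any class of groups with the closure properties `ClosedE C` which contains the solvable groups. All this is
published for the class of the groups whose wreath products with finite groups satisfy the Farrell-Jones conjecture for
A-theory with coefficients (Ullmann and Winges; Enkelmann, Lück, Pieper, Ullmann and Winges; Kasprowski, Ullmann, Wegner
and Winges; Bunke, Kasprowski and Winges). It is open whether all linear groups are in this class.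

Let `R` be a commutative ring and let `A` be a square matrix over `R`, with the quadratic form
`q_A(w) = ∑ A i j w_i w_j`. `O_A(R)` is the orthogonal group of the form `v_0 v_1 + q_A(w)`, the
orthogonal sum of a hyperbolic plane and of `q_A`. If `q_A` is anisotropic these are the quadratic forms of Witt
index one. Examples are the Lorentz groups (`q_A` definite over an ordered field), and over fields the groups
related to `PGL_2` of the field, of its quadratic extensions and of quaternion algebras (`q_A` the norm form).

It is open which groups of matrices are in the class. Known are, by Rüping, the groups `GL_n(ℚ)` (so all groups of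
matrices over algebraic number fields) and `GL_n(F(t))`, `F` a finite field. For groups of matrices over fields of
positive transcendence degree over `ℚ`, or of degree at least two over a finite field, nothing general is known.

(1) *Reduction modulo an ideal.* Let `R` be a commutative domain with a degree function `δ`, let `q_A` be
anisotropic with respect to `δ` (`δ(q_A(w)) = 2 max δ(w_i)` for `w ≠ 0`) and let `φ : R → S` be a homomorphism such that
for each `n` a power of the kernel of `φ` contains no element `r ≠ 0` of degree at most `n`. Then a subgroup `Γ`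
of `O_A(R)` is in `C` if its image in `GL(S)` is.

(2) *Domains with one place at infinity.* Let `k` be a field such that all `GL_n(k)` are in `C`, let `R` be a
finitely generated domain over `k` with a degree function `δ` such that the elements of degree at most `n` are contained
in a subspace of finite dimension, for all `n`, and let `q_A` be anisotropic with respect to `δ`. Then
`O_A(R)` is in `C`. For example `R` may be the coordinate ring of a smooth projective curve minus a point (the
degree is the order of the pole) or a subring of such a ring.

Outline of the proof. The degree function gives a discrete valuation of the field `F` of fractions of `R`, and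
`q_A` is anisotropic over its residue field. The orthogonal group of `v_0 v_1 + q_A(w)` over `F` acts on a tree: the
vertices are the images of the lattice `L_0` of the integral vectors. By the Iwasawa decomposition each vertex has a
representative in the stabilizer `B` of an isotropic line; this gives it a parent (apply `(v_0, v_1, w) ↦
(π⁻¹ v_0, π v_1, w)`) and a level. The decomposition of the stabilizer of `L_0` by the value of one matrix entry
shows that the neighbours of a vertex are its parent and its children, and the Eichler transformations show that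
any two vertices have a common ancestor; so the graph is a tree. The elements of `Γ` which fix a given vertex have entries
of bounded degree, so the congruence subgroup modulo a power of the kernel of `φ` acts without fixed point on the orbit
of the vertex, and the quotients of `Γ` by the congruence subgroups are nilpotent extensions of the image of
`Γ` in `GL(S)`, hence in `C`. Now the theorem of the starting library on groups which act on trees and have, for each
vertex, a homomorphism to a group in `C` which is injective on the stabilizer of the vertex applies.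
-/

set_option autoImplicit false

namespace Pool.Agent.Results.MP_2a547c_gt.OrthogonalDegree

open Matrix
open Pool.Agent.Y110.FJ (ClosedE)

/-- the quadratic form `q_A(w) = ∑ A i j w_i w_j` -/
def form {R : Type} [CommRing R] {m : ℕ} (A : Matrix (Fin m) (Fin m) R) (w : Fin m → R) : R :=
  ∑ i, ∑ j, A i j * w i * w j

/-- the form `v_0 v_1 + q_A(w)` on `R ^ (2 + m)` -/
def hyp {R : Type} [CommRing R] {m : ℕ} (A : Matrix (Fin m) (Fin m) R)
    (v : Fin 2 ⊕ Fin m → R) : R :=
  v (Sum.inl 0) * v (Sum.inl 1) + form A (fun i => v (Sum.inr i))

/-- the invertible matrices of degree `2 + m` -/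
def GLm (m : ℕ) (R : Type) [CommRing R] : Type := GL (Fin 2 ⊕ Fin m) R

instance (m : ℕ) (R : Type) [CommRing R] : Group (GLm m R) :=
  @Units.instGroup (Matrix (Fin 2 ⊕ Fin m) (Fin 2 ⊕ Fin m) R) _

/-- the matrix -/
def GLm.mat {m : ℕ} {R : Type} [CommRing R] (g : GLm m R) :
    Matrix (Fin 2 ⊕ Fin m) (Fin 2 ⊕ Fin m) R := Units.val (α := Matrix (Fin 2 ⊕ Fin m) _ R) g

/-- a homomorphism of rings is applied to the entries -/
def GLm.map {m : ℕ} {R S : Type} [CommRing R] [CommRing S] (φ : R →+* S) : GLm m R →* GLm m S :=
  GeneralLinearGroup.map φ

/-- the orthogonal group of the form `v_0 v_1 + q_A(w)` -/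
def OG {R : Type} [CommRing R] {m : ℕ} (A : Matrix (Fin m) (Fin m) R) : Subgroup (GLm m R) where
  carrier := {g | ∀ v, hyp A (g.mat *ᵥ v) = hyp A v}
  one_mem' := fun v => by
    change hyp A ((1 : Matrix (Fin 2 ⊕ Fin m) (Fin 2 ⊕ Fin m) R) *ᵥ v) = _
    rw [Matrix.one_mulVec]
  mul_mem' := by
    intro g h hg hh v
    change hyp A ((g.mat * h.mat) *ᵥ v) = _
    rw [← Matrix.mulVec_mulVec, hg, hh]
  inv_mem' := by
    intro g hg v
    have h1 := hg (g⁻¹.mat *ᵥ v)
    have h2 : g.mat * g⁻¹.mat = 1 := Units.mul_inv (α := Matrix (Fin 2 ⊕ Fin m) _ R) g
    rw [Matrix.mulVec_mulVec, h2, Matrix.one_mulVec] at h1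
    exact h1.symm

/-- the orthogonal group `O_A(R)` of the form `v_0 v_1 + q_A(w)`, as a group -/
def O {R : Type} [CommRing R] {m : ℕ} (A : Matrix (Fin m) (Fin m) R) : Type := ↥(OG A)

instance {R : Type} [CommRing R] {m : ℕ} (A : Matrix (Fin m) (Fin m) R) : Group (O A) :=
  (OG A).toGroup

/-- `δ` is a degree function on `R`: the degree of a product of nonzero elements is the sum of their
degrees, and the degree of a nonzero sum of nonzero elements is at most the maximum of their degrees. -/
structure IsDegree {R : Type} [CommRing R] (δ : R → ℕ) : Prop where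
  mul : ∀ a b, a ≠ 0 → b ≠ 0 → δ (a * b) = δ a + δ b
  add : ∀ a b, a ≠ 0 → b ≠ 0 → a + b ≠ 0 → δ (a + b) ≤ max (δ a) (δ b)

/-- `q_A` is anisotropic with respect to `δ`: if `w ≠ 0` then `q_A(w) ≠ 0` has degree `2 max δ(w_i)`. -/
def DegreeAnisotropic {R : Type} [CommRing R] {m : ℕ} (δ : R → ℕ) (A : Matrix (Fin m) (Fin m) R) :
    Prop :=
  ∀ w : Fin m → R, w ≠ 0 → ∃ i, w i ≠ 0 ∧ form A w ≠ 0 ∧ δ (form A w) = 2 * δ (w i) ∧
    ∀ j, w j ≠ 0 → δ (w j) ≤ δ (w i)

/-- (1) Reduction modulo an ideal. -/
def Reduction (C : ∀ (G : Type) [Group G], Prop) : Prop :=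
  ∀ (R S : Type) [CommRing R] [IsDomain R] [CommRing S] (δ : R → ℕ), IsDegree δ →
    ∀ (m : ℕ) (A : Matrix (Fin m) (Fin m) R), DegreeAnisotropic δ A →
    ∀ φ : R →+* S, (∀ n : ℕ, ∃ k : ℕ, ∀ r ∈ (RingHom.ker φ) ^ k, r ≠ 0 → n < δ r) →
    ∀ Γ : Subgroup (GLm m R), Γ ≤ OG A → C ↥(Γ.map (GLm.map φ)) → C ↥Γ

/-- (2) Finitely generated domains over `k` with a degree function. -/
def AffineDomains (C : ∀ (G : Type) [Group G], Prop) : Prop :=
  ∀ (k : Type) [Field k], (∀ n : ℕ, C (GL (Fin n) k)) →
    ∀ (R : Type) [CommRing R] [IsDomain R] [Algebra k R] [Algebra.FiniteType k R] (δ : R → ℕ),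
      IsDegree δ →
      (∀ n : ℕ, ∃ W : Submodule k R, Module.Finite k W ∧ ∀ r, r ≠ 0 → δ r ≤ n → r ∈ W) →
      ∀ (m : ℕ) (A : Matrix (Fin m) (Fin m) R), DegreeAnisotropic δ A → C (O A)

/-- Let `C` be a class of groups with the closure properties `ClosedE C` which contains the solvable
groups. Then (1) and (2) above hold. -/
theorem result (C : ∀ (G : Type) [Group G], Prop) (hC : ClosedE C)
    (hS : ∀ (G : Type) [Group G], Group.IsSolvable G → C G) :
    Reduction C ∧ AffineDomains C :=
  ⟨fun R S _ _ _ δ hδ m A hA φ hφ Γ hΓA hΓ =>
      U722.OG.main_dom hC hS ⟨hδ.mul, hδ.add⟩ hA φ hφ Γ hΓA hΓ,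
    fun k _ hk R _ _ _ _ δ hδ hfin m A hA => U722.OG.fin_type hC hS hk ⟨hδ.mul, hδ.add⟩ hfin hA⟩

end Pool.Agent.Results.MP_2a547c_gt.OrthogonalDegree
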