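import Pool.Agent.U863.RP.Main

/-!
# Extensions whose kernel is a restricted product of centreless groups

`C` is any class of groups with the closure properties `ClosedE C`: it contains `ℤ`, it is closed
under subgroups, finite products, free products, overgroups of finite index and directed colimits, and
it satisfies the extension criterion. All this is known for the class of the groups that satisfy the
Farrell–Jones conjecture for A-theory with coefficients and finite wreath products (Enkelmann, Lück,
Pieper, Ullmann and Winges), and for the corresponding classes in K- and L-theory.

Theorem. Let `𝒜` be a set of pairwise commuting subgroups with trivial centre of a group `G`, which is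
invariant under conjugation, and let `N` be the normal subgroup which they generate, their restricted
product. Suppose that for every `A ∈ 𝒜` the class `C` contains all groups `U` of automorphisms of `A` which
contain the group `Inn(A)` of inner automorphisms such that `U / Inn(A)` is finite or virtually infinite
cyclic. If `G ⧸ N` is in `C`, then `G` is in `C`.

So only the mapping tori of the factors and their finite extensions have to be in `C`, but neither
`Aut(A)` nor the images of `G` in it. For instance, the factors may be nonabelian free groups of finite
rank or nonelementary torsion-free hyperbolic groups if `C` is the class for K- or L-theory (Bestvina,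
Fujiwara and Wigglesworth), or groups with finite outer automorphism group and trivial centre which are
in `C`, such as nonabelian finite simple groups or irreducible lattices of higher rank. If `N` is the
restricted product of any infinite family of centreless groups which are not direct products, then every
group `G` which contains `N` as a normal subgroup permutes the factors by conjugation, so that the
theorem is about all extensions of groups in `C` by `N`. The extension need not split, the action on the
set of factors is arbitrary, with infinite stabilizers and infinitely many orbits, and the factors need
not be isomorphic. Known for infinitely many factors is the case of restricted wreath products (the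
split case, with factors permuted by `G ⧸ N` without twist).

The theorem `general` below is a criterion without the assumption that the members of `𝒜` commute or have
trivial centre: it is enough that every element of the normal subgroup `N` centralizes almost all of
them, only `1` centralizing all.

Outline of the proof. By the extension criterion one may assume that `G ⧸ N` is virtually cyclic. Choose
a representative `r(A)` of every conjugacy class of members of `𝒜`, and `k(A)` in `G` with
`k(A) r(A) k(A)⁻¹ = A`. Then `g ↦ k(g A g⁻¹)⁻¹ g k(A)`, in the image of `N_G(r(A))` in `Aut(r(A))`, and the
action on `𝒜` define a homomorphism of `G` to the unrestricted permutational wreath product of the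
free product of these groups, which are in `C` by assumption. It is injective on `N` and maps `N` to
elements which are trivial outside finite sets. For such `N` it was shown in
`MP_8a3537_gt.TwoGeneratorGroups` (lemma `finitary`) that `G` is in `C` if `G ⧸ N` is, by the
realization criterion: given `g` in `G` and a finite subset `E` of `N` one finds a finite set `J'` of
coordinates, a permutation of `J'` and finitely many coordinates of `g` which realize the conjugation by
`g` on `E` in a finite wreath product.
-/

set_option autoImplicit false

namespace Pool.Agent.Results.MP_2a547c_gt.RestrictedProductKernels

open Pool.Agent.Y110.FJ (ClosedE)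
open Pool.Agent.U863.RP

/-- kernels which centralize almost all members of a family of subgroups. `VC V`: `V` has a cyclic
subgroup of finite index; `Rg H A`: the image of the normalizer of `A` in `H` in `Aut(A)` -/
theorem general (C : ∀ (G : Type) [Group G], Prop) (hC : ClosedE C) (G : Type) [Group G]
    (𝒜 : Set (Subgroup G)) (hconj : ∀ A ∈ 𝒜, ∀ g : G, A.map (MulAut.conj g).toMonoidHom ∈ 𝒜)
    (N : Subgroup G) [N.Normal]
    (hA : ∀ A ∈ 𝒜, ∀ V : Subgroup (G ⧸ N), VC V → C (Rg (V.comap (QuotientGroup.mk' N)) A))
    (hfin : ∀ n ∈ N, {A | A ∈ 𝒜 ∧ ¬ Cz n A}.Finite)
    (hone : ∀ n ∈ N, (∀ A ∈ 𝒜, Cz n A) → n = 1) (hQ : C (G ⧸ N)) : C G :=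
  main_vc hC hconj N hA hfin hone hQ

theorem result (C : ∀ (G : Type) [Group G], Prop) (hC : ClosedE C) (G : Type) [Group G]
    (𝒜 : Set (Subgroup G)) (hconj : ∀ A ∈ 𝒜, ∀ g : G, A.map (MulAut.conj g).toMonoidHom ∈ 𝒜)
    (hcomm : ∀ A ∈ 𝒜, ∀ B ∈ 𝒜, A ≠ B → ∀ a ∈ A, ∀ b ∈ B, a * b = b * a)
    (hcent : ∀ A ∈ 𝒜, ∀ a ∈ A, (∀ b ∈ A, a * b = b * a) → a = 1)
    (hA : ∀ A ∈ 𝒜, ∀ U : Subgroup (MulAut A), (MulAut.conj (G := A)).range ≤ U →
      (∃ c ∈ U, ((MulAut.conj (G := A)).range ⊔ Subgroup.zpowers c).relIndex U ≠ 0) → C U)
    (N : Subgroup G) [N.Normal] (hN : N = sSup 𝒜) (hQ : C (G ⧸ N)) : C G :=
  restricted hC ⟨hconj, hcomm, hcent⟩ hA N hN hQ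

end Pool.Agent.Results.MP_2a547c_gt.RestrictedProductKernels
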