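import Pool.Agent.U89.SC.Main

/-!
# Kernels with a scattered system and the Farrell–Jones conjecture

`C` is any class of groups with the closure properties `ClosedE C` which contains the solvable
groups. This is known for the class of the groups that satisfy the Farrell–Jones conjecture for
`A`-theory with coefficients and finite wreath products (solvable groups: Kasprowski, Ullmann,
Wegner, Winges).

Let `N` be a normal subgroup of `G`. A *system* (`IsSystem N 𝓢`) is a complete chain `𝓢` of normal
subgroups of `G`, totally ordered by inclusion, from the trivial subgroup to `N`. It is *scattered* if
the rational numbers do not embed in it: for instance if it is finite, well-ordered (ascending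
series), conversely well-ordered (descending series) or is obtained by replacing repeatedly the jumps
of such systems by such systems.

**Theorem.** Suppose that `N` has a scattered system `𝓢` such that

* for all jumps `S < T` of `𝓢` the factor `T / S` is solvable or, more generally, all groups
  `(T / S) ⟨h⟩`, `h ∈ G / S`, are in `C` (`GoodJump`);
* for every finitely generated subgroup `Γ` of `N` the subgroups `Γ ∩ S`, `S ∈ 𝓢`, satisfy the
  descending chain condition (`LocallyStabilizing`).

If `G ⧸ N` is in `C` then `G` is in `C`.

The local condition is void for well-ordered systems. So the theorem covers for example all
hypercentral kernels `N`, and all kernels which have an ascending `G`-invariant series whose factors are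
solvable, or free (by Brück, Kielak and Wu for free-by-cyclic groups). For descending systems the local
condition holds for instance if `N` is locally polycyclic and all quotients `N / S` are torsion-free;
the series may have any length. For the derived series and the length `ω` this is the theorem on
detected kernels of the starting library (`MP_5d3e93_al.DetectedKernels`). New are the systems of
arbitrary scattered order types, in which ascending and descending parts alternate.

Outline of the proof. Call an interval `[S, T]` of the chain good if `(T / S') ⟨h⟩` is in `C` for all
members `S'` in the interval and all `h ∈ G / S'`. This is a transitive relation by the extension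
criterion. Unions of ascending chains of good intervals with the same lower end are good by the
criterion for conjugations on finite sets, and so are unions of intervals with the same upper end, by
detection in the quotients `G / S'` and the local condition. So the equivalence classes of the relation
of good intervals are closed intervals, and no two classes are neighbours because jumps are
good. If there were two classes, they would form a dense order, and the rational numbers would embed
in the chain.
-/

set_option autoImplicit false

namespace Pool.Agent.Results.MP_2a547c_gt.ScatteredSystems

open Pool.Agent.Y110.FJ (ClosedE)
open Pool.Agent.U89.SC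

/-- The factor `T / S` is solvable, or all groups `(T / S) ⟨h⟩`, `h ∈ G / S`, are in `C`. -/
def GoodJump (C : ∀ (G : Type) [Group G], Prop) {G : Type} [Group G] (S T : Subgroup G) : Prop :=
  ∀ _ : S.Normal, Group.IsSolvable ↥(T.map (QuotientGroup.mk' S)) ∨
    ∀ h : G ⧸ S, C ↥(T.map (QuotientGroup.mk' S) ⊔ Subgroup.zpowers h)

/-- Extensions of groups in `C` by groups with a scattered system. -/
theorem result (C : ∀ (G : Type) [Group G], Prop) (hC : ClosedE C)
    (hsol : ∀ (S : Type) [Group S], Group.IsSolvable S → C S)
    (G : Type) [Group G] (N : Subgroup G) [N.Normal] (hQ : C (G ⧸ N))
    (𝓢 : Set (Subgroup G)) (h𝓢 : IsSystem N 𝓢) (hsc : Scattered 𝓢)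
    (hloc : LocallyStabilizing N 𝓢) (hjump : ∀ S T, IsJump 𝓢 S T → GoodJump C S T) : C G := by
  refine scattered_main hC hsol h𝓢 hloc ?_ hsc hQ
  intro S T hST
  have hT := h𝓢.normal T hST.2.1
  have hS := h𝓢.normal S hST.1
  rcases hjump S T hST hS with h | h
  · exact Gd.of_solvable hsol hT fun _ => h
  · exact fun _ => h

end Pool.Agent.Results.MP_2a547c_gt.ScatteredSystems
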